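import Pool.Agent.H20.RCC.Stmts

/-! Board rcc, row G0B (helper98). -/

set_option autoImplicit false

namespace Pool.RCC

theorem G0B_co0 : ∀ x : List ℕ, (∀ s ∈ x, s ≤ 9) → co 0 x = 0
  | [], _ => rfl
  | s :: t, h => by
    have hs : s ≤ 9 := h s (by simp)
    have h0 : (s + 0) / 10 = 0 := by omega
    show co ((s + 0) / 10) t = 0
    rw [h0]
    exact G0B_co0 t (fun r hr => h r (by simp [hr]))

theorem G0B_len (v : ℕ → ℕ) : (wd v).length = tot v := by
  simp only [wd, List.length_append, List.length_replicate, tot]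
  omega

theorem G0B_mem (v : ℕ → ℕ) (h9 : v 9 = 0) : ∀ d ∈ wd v, d ≤ 8 := by
  intro d hd
  simp only [wd, h9, List.replicate_zero, List.nil_append, List.mem_append,
    List.mem_replicate] at hd
  omega

theorem G0B_cong (f g : ℕ → ℕ) (h : ∀ d, 1 ≤ d → d ≤ 9 → f d = g d) : W f = W g := by
  unfold W wd
  rw [h 1 (by norm_num) (by norm_num), h 2 (by norm_num) (by norm_num),
    h 3 (by norm_num) (by norm_num), h 4 (by norm_num) (by norm_num),
    h 5 (by norm_num) (by norm_num), h 6 (by norm_num) (by norm_num),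
    h 7 (by norm_num) (by norm_num), h 8 (by norm_num) (by norm_num),
    h 9 (by norm_num) (by norm_num)]

theorem G0B_thm (hTW : TWStmt) (hAR : ARStmt) (hDEC : DECStmt) (hZI0 : ZI0Stmt) : G0BStmt := by
  intro v hv
  obtain ⟨hk, hv0, hv10, hv9, hv1⟩ := hv
  have hOK : OK 0 v := ⟨hk, hv0, hv10, hv9, hv1⟩
  have h9 : v 9 = 0 := by simpa [lo] using hv9
  obtain ⟨happ, hlen, hrep, hco⟩ := hAR
  set Z' := (wd v).map (· + 1) with hZ'
  have hZlen : Z'.length = tot v := by simp [hZ', G0B_len]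
  have hZ9 : ∀ s ∈ Z'.reverse, s ≤ 9 := by
    intro s hs
    rw [List.mem_reverse, hZ', List.mem_map] at hs
    obtain ⟨a, ha, rfl⟩ := hs
    have := G0B_mem v h9 a ha
    show a + 1 ≤ 9
    omega
  have hcoR : co 0 Z'.reverse = 0 := G0B_co0 _ hZ9
  have hc : co 1 Z' ≤ 1 := by
    apply hco 1 Z' le_rfl
    intro s hs
    have := hZ9 s (by simpa using hs)
    omega
  have houts : outs0 v = ad 1 Z' ++ (ad 0 Z'.reverse ++ [2 + co 1 Z']) := rfl
  have hol : (outs0 v).length = 2 * tot v + 1 := by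
    rw [houts]
    simp only [List.length_append, hlen, List.length_reverse, hZlen, List.length_cons,
      List.length_nil]
    omega
  have hc1 : (outs0 v).count 1 ≤ 2 * tot v + 1 := hol ▸ List.count_le_length
  have hc2 : (outs0 v).count 2 ≤ 2 * tot v + 1 := hol ▸ List.count_le_length
  refine ⟨((outs0 v).count 1 : ℤ) - 1, ((outs0 v).count 2 : ℤ) - tot v - 1, ?_, ?_, ?_⟩
  · rw [abs_le]; unfold Mv; push_cast; constructor <;> omega
  · rw [abs_le]; unfold Mv; push_cast; constructor <;> omega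
  intro p q
  refine ⟨fun h => absurd h (by norm_num), fun _ hp hq => ?_⟩
  unfold Mv at hp hq
  refine ⟨2 * p - 1 + (outs0 v).count 1, (q - p - tot v) - 1 + (outs0 v).count 2, ?_, ?_, ?_⟩
  · rw [if_neg (by norm_num)]; push_cast; omega
  · push_cast; omega
  obtain ⟨b, hb⟩ : ∃ b, q = p + tot v + (b + 1) := ⟨q - p - tot v - 1, by omega⟩
  obtain ⟨a, ha⟩ : ∃ a, p = a + 1 := ⟨p - 1, by omega⟩
  have hwd := (hDEC 0 p q v hOK).2 rfl
  have hz := (hZI0 (wd v) (wd (cv 0 p q v)) p (b + 1)).2 (by rw [hwd, G0B_len, hb])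
  have hT := hTW (cv 0 p q v) _ hz
  rw [hT]
  apply G0B_cong
  intro d hd1 hd9
  have e1 := hrep 0 a 10 (by norm_num) (by norm_num)
  have e2 := hrep (co 1 Z') b 2 hc (by norm_num)
  have e2c : (2 + co 1 Z') / 10 = 0 := by omega
  have e2d : (2 + co 1 Z') % 10 = 2 + co 1 Z' := by omega
  have hd : ∀ s, s = List.replicate p 10 ++ (Z' ++ (List.replicate (b + 1) 2 ++
      (Z'.reverse ++ List.replicate p 10))) →
      ad 0 s ++ [co 0 s] = (0 :: List.replicate a 1) ++ (ad 1 Z' ++
        (((2 + co 1 Z') :: List.replicate b 2) ++ (ad 0 Z'.reverse ++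
          ((0 :: List.replicate a 1) ++ [1])))) := by
    intro s hs
    rw [hs, ha, (happ _ _ _).1, (happ _ _ _).2, (happ _ _ _).1, (happ _ _ _).2,
      (happ _ _ _).1, (happ _ _ _).2, (happ _ _ _).1, (happ _ _ _).2, e1.1, e1.2]
    norm_num
    rw [e2.1, e2.2, e2c, e2d, hcoR, e1.1, e1.2]
    norm_num
  rw [hd _ rfl]
  simp only [List.count_append, List.count_cons, List.count_replicate, List.count_nil]
  have ho : (outs0 v).count d = (ad 1 Z').count d + ((ad 0 Z'.reverse).count d +
      (if 2 + co 1 Z' = d then 1 else 0)) := by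
    rw [houts]
    simp only [List.count_append, List.count_cons, List.count_nil, beq_iff_eq, zero_add]
  have hnk : nk 0 1 = 1 := by decide
  rw [hnk]
  unfold cv stp sd
  rw [hnk]
  simp only [lo, beq_iff_eq]
  by_cases h1 : d = 1
  · subst h1
    simp only [ho] at *
    norm_num at *
    omega
  · by_cases h2 : d = 2
    · subst h2
      norm_num at *
      omega
    · have h1' : ¬ (1 = d) := fun h => h1 h.symm
      have h2' : ¬ (2 = d) := fun h => h2 h.symm
      have h0' : ¬ (0 = d) := by omega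
      have h0'' : d ≠ 0 := by omega
      simp [h1, h2, h1', h2', h0', h0'', hd9, ho]
      omega

end Pool.RCC
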